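import Mathlib
import Pool.Agent.X145.ML.Cont

set_option autoImplicit false

/-!
# Record prime gaps around the numerators and denominators of continued fractions

Let `f(Z) = log Z (log₂ Z)² log₄ Z / (log₃ Z)²` (iterated natural logarithms), the size of the largest gaps
between consecutive primes that are known to occur up to `Z`.

For every `k` there is `c > 0` such that for all large `Z` every box of side `Z` contains integers
`a_0, …, a_{k-1}` such that ALL the continuants `K(a_i, a_{i+1}, …, a_{i+L-1})` of consecutive blocks are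
surrounded by integers with a prime factor `≤ Z ^ (1/10)`, up to the distance `c f(Z)`. If the box lies in the
positive numbers, this says that the numerators and the denominators of all the continued fractions
`[a_i; a_{i+1}, …, a_{i+l}]` lie in the middle of prime-free intervals (for primes `> Z ^ (1/10)`) of the length
of the largest known gaps.

The continuants are not homogeneous for any weights when the number of variables is even and positive
(`K(a, b) = a b + 1`), so the earlier criteria for weighted homogeneous polynomials do not apply. The number of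
solutions modulo `p` of `K(a_i, …, a_{i+L-1}) = r` and of pairs of such equations is found here by recursion from the
last variable, after reversal of the block if two blocks end at the same place; `K(a, b) = 1` has too many
solutions, and the prime `2` takes care of this value. The sieve is that of the starting library.
-/

namespace Pool.Agent.Results.MP_3bc45c_nt.ContinuedFractions

/-- The record scale `f(Z) = log Z (log₂ Z)² log₄ Z / (log₃ Z)²` (iterated natural logarithms). -/
noncomputable def f (Z : ℝ) : ℝ :=
  Real.log Z * (Real.log (Real.log Z)) ^ 2 * Real.log (Real.log (Real.log (Real.log Z))) /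
    (Real.log (Real.log (Real.log Z))) ^ 2

/-- Every integer at distance at most `c f(Z)` from `N` has a prime factor `p ≤ Z ^ (1/10)`. -/
def Isolated (c : ℝ) (Z : ℕ) (N : ℤ) : Prop :=
  ∀ n : ℤ, |(n : ℝ) - (N : ℝ)| ≤ c * f Z →
    ∃ p : ℕ, p.Prime ∧ (p : ℝ) ≤ (Z : ℝ) ^ (1 / 10 : ℝ) ∧ (p : ℤ) ∣ n

/-- The continuant of the `L` integers `a_i, a_{i+1}, …, a_{i+L-1}`. -/
def K (a : ℕ → ℤ) (i : ℕ) : ℕ → ℤ
  | 0 => 1
  | 1 => a i
  | L + 2 => a (i + L + 1) * K a i (L + 1) + K a i L

/-- The continued fraction `[a_i; a_{i+1}, …, a_{i+l}]`. -/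
def cf (a : ℕ → ℤ) : ℕ → ℕ → ℚ
  | 0, i => a i
  | l + 1, i => a i + 1 / cf a l (i + 1)

theorem K_eq (a : ℕ → ℤ) (i L : ℕ) : K a i L = Pool.Agent.X145.ML.cont a i L := by
  induction L using Nat.strong_induction_on with
  | _ L ih =>
    rcases L with _ | L
    · rfl
    · rcases L with _ | L
      · rfl
      · simp only [K, Pool.Agent.X145.ML.cont]
        rw [ih (L + 1) (by omega), ih L (by omega)]

theorem K_left (a : ℕ → ℤ) (i L : ℕ) :
    K a i (L + 2) = a i * K a (i + 1) (L + 1) + K a (i + 2) L := by
  rw [K_eq, K_eq, K_eq]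
  exact Pool.Agent.X145.ML.cont_left a i L

theorem K_pos (a : ℕ → ℤ) (i L : ℕ) (h : ∀ m, i ≤ m → m < i + L → 0 < a m) : 0 < K a i L := by
  induction L using Nat.strong_induction_on with
  | _ L ih =>
    rcases L with _ | L
    · exact one_pos
    · rcases L with _ | L
      · exact h i le_rfl (by omega)
      · have h1 := ih (L + 1) (by omega) fun m h1 h2 => h m h1 (by omega)
        have h2 := ih L (by omega) fun m h1 h2 => h m h1 (by omega)
        have h3 := h (i + L + 1) (by omega) (by omega)
        simp only [K]
        positivity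

theorem K_coprime (a : ℕ → ℤ) (i l : ℕ) : IsCoprime (K a i (l + 1)) (K a (i + 1) l) := by
  induction l generalizing i with
  | zero => exact isCoprime_one_right
  | succ l ih =>
    rw [K_left]
    have h1 := ih (i + 1)
    rw [add_comm, mul_comm]
    exact IsCoprime.add_mul_left_left h1.symm (a i)

/-- the value of the continued fraction -/
theorem cf_eq (a : ℕ → ℤ) (i l : ℕ) (h : ∀ m, i ≤ m → m < i + l + 1 → 0 < a m) :
    cf a l i = (K a i (l + 1) : ℚ) / (K a (i + 1) l : ℚ) := by
  induction l generalizing i with
  | zero =>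
    simp [cf, K]
  | succ l ih =>
    have h1 := ih (i + 1) fun m h1 h2 => h m (by omega) (by omega)
    have h2 : (0 : ℚ) < K a (i + 1) (l + 1) := by
      exact_mod_cast K_pos a (i + 1) (l + 1) fun m h1 h2 => h m (by omega) (by omega)
    have h3 : (0 : ℚ) < K a (i + 1 + 1) l := by
      exact_mod_cast K_pos a (i + 1 + 1) l fun m h1 h2 => h m (by omega) (by omega)
    simp only [cf]
    rw [h1, K_left]
    push_cast
    field_simp

/-- **Record gaps around all numerators and denominators of continued fractions.** For every `k` there are `c > 0`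
and `Z₀` such that for `Z ≥ Z₀` every box `∏ (M_m, M_m + Z]` contains integers `a_0, …, a_{k-1}` such that the
continuants of all nonempty blocks `a_i, …, a_{i+L-1}` are isolated; and if all `M_m ≥ 0`, then the numerators of all
the continued fractions `[a_i; a_{i+1}, …, a_{i+l}]` with `i + l < k` are isolated and so are their denominators,
if `l ≥ 1`. -/
theorem result (k : ℕ) : ∃ c : ℝ, 0 < c ∧ ∃ Z₀ : ℝ, ∀ Z : ℕ, Z₀ ≤ Z → ∀ M : ℕ → ℤ,
    ∃ a : ℕ → ℤ, (∀ m < k, M m < a m ∧ a m ≤ M m + Z) ∧
      (∀ i L : ℕ, 1 ≤ L → i + L ≤ k → Isolated c Z (K a i L)) ∧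
      ((∀ m < k, 0 ≤ M m) → ∀ i l : ℕ, i + l < k →
        Isolated c Z (cf a l i).num ∧ (1 ≤ l → Isolated c Z ((cf a l i).den : ℤ))) := by
  obtain ⟨c, hc, Z₀, h⟩ := Pool.Agent.X145.ML.continuants k
  refine ⟨c, hc, Z₀, fun Z hZ M => ?_⟩
  obtain ⟨a, h1, h2⟩ := h Z hZ M
  have h3 : ∀ i L : ℕ, 1 ≤ L → i + L ≤ k → Isolated c Z (K a i L) := by
    intro i L hL hi n hn
    rw [K_eq] at hn
    exact h2 i L hL hi n hn
  refine ⟨a, h1, h3, fun hM i l hil => ?_⟩
  have hp : ∀ m, i ≤ m → m < i + l + 1 → 0 < a m := fun m _ hm =>
    (hM m (by omega)).trans_lt (h1 m (by omega)).1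
  have e := cf_eq a i l hp
  have hq : 0 < K a (i + 1) l := K_pos a (i + 1) l fun m h1 h2 => hp m (by omega) (by omega)
  have hco : Nat.Coprime (K a i (l + 1)).natAbs (K a (i + 1) l).natAbs :=
    Int.isCoprime_iff_gcd_eq_one.mp (K_coprime a i l)
  have hn : (cf a l i).num = K a i (l + 1) := by
    rw [e]
    exact Rat.num_div_eq_of_coprime hq hco
  have hd : ((cf a l i).den : ℤ) = K a (i + 1) l := by
    rw [e]
    exact Rat.den_div_eq_of_coprime hq hco
  rw [hn, hd]
  exact ⟨h3 i (l + 1) (by omega) (by omega), fun hl => h3 (i + 1) l hl (by omega)⟩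

end Pool.Agent.Results.MP_3bc45c_nt.ContinuedFractions
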