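import Pool.Agent.X108.Pat.Main
import Pool.Agent.X108.Pat.AE

/-!
# Exact numbers of primes on the scale of Cramér's model below the multiples of almost every real number

Cramér's model predicts that the number of the primes in `(y - lam log y, y)` has a Poisson law.  For almost all
real `x`, in the strong sense that the exceptional `x ∈ [Y, 2Y]` have measure at most `Y ^ (1 - κ)`, a positive
proportion of the multiples `y = k x`, `k ≤ Y ^ θ` (`θ > 0` is arbitrarily small), have exactly `m` primes in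
`(y - lam log y, y)` and no prime in the rest of the longer interval `(y - Lam log y, y)`.

By the lemma of Borel and Cantelli (`ae_of`), for every sequence `q j` which grows faster than every power of
`j` (for instance `q j = 2 ^ j`), the same holds for almost every `α ∈ [1, 2]` and the multiples `k q_j α`,
`k ≤ q_j ^ θ`, for all large `j`.
-/

set_option autoImplicit false

open MeasureTheory Filter Topology

namespace Pool.Agent.Results.MP_3bc45c_nt.ExactCountsBelowMultiples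

/-- the number of the primes in the open interval `(y - H, y)` -/
noncomputable def below (y H : ℝ) : ℕ := {p : ℕ | p.Prime ∧ y - H < p ∧ (p : ℝ) < y}.ncard

/-- exactly `m` primes in `(y - lam log y, y)` and in `(y - Lam log y, y)` -/
def Pattern (lam Lam : ℝ) (m : ℕ) (y : ℝ) : Prop :=
  below y (lam * Real.log y) = m ∧ below y (Lam * Real.log y) = m

/-- most reals: for all `x` in `[Y, 2Y]` outside a set of measure `Y ^ (1 - κ)` at least `c Y ^ θ` of the
multiples `k x`, `k ≤ Y ^ θ`, have the property `R` -/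
def MostReals (θ c κ : ℝ) (R : ℝ → Prop) : Prop :=
  ∃ Y₀ : ℝ, ∀ Y : ℝ, Y₀ ≤ Y → ∃ E : Set ℝ, MeasurableSet E ∧ volume E ≤ ENNReal.ofReal (Y ^ (1 - κ)) ∧
    ∀ x : ℝ, Y ≤ x → x ≤ 2 * Y → x ∉ E → c * Y ^ θ ≤ ({k : ℕ | (k : ℝ) ≤ Y ^ θ ∧ R (k * x)}.ncard : ℝ)

/-- almost every real: for every sequence `q` growing faster than all powers of `j`, for almost every
`α ∈ [1, 2]` and all large `j` at least `c q_j ^ θ` of the multiples `k q_j α`, `k ≤ q_j ^ θ`, have the
property `R` -/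
def AlmostEvery (θ c : ℝ) (R : ℝ → Prop) : Prop :=
  ∀ q : ℕ → ℝ, (∀ A : ℕ, ∀ᶠ j : ℕ in atTop, (j : ℝ) ^ A ≤ q j) →
    ∀ᵐ α : ℝ, 1 ≤ α → α ≤ 2 → ∀ᶠ j : ℕ in atTop,
      c * (q j) ^ θ ≤ ({k : ℕ | (k : ℝ) ≤ (q j) ^ θ ∧ R (k * (q j * α))}.ncard : ℝ)

lemma pattern_of {lam Lam : ℝ} {m : ℕ} {y : ℝ} (h : Pool.Agent.H749R6.CM.Q lam Lam m y)
    (hl : lam ≤ Lam) (hy : 1 ≤ y) : Pattern lam Lam m y := by
  obtain ⟨ha, hb⟩ := h
  refine ⟨ha, ?_⟩
  have h0 : 0 ≤ Real.log y := Real.log_nonneg hy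
  have h1 : lam * Real.log y ≤ Lam * Real.log y := mul_le_mul_of_nonneg_right hl h0
  have hset : {p : ℕ | p.Prime ∧ y - Lam * Real.log y < p ∧ (p : ℝ) < y} =
      {p : ℕ | p.Prime ∧ y - lam * Real.log y < p ∧ (p : ℝ) < y} := by
    ext p
    constructor
    · rintro ⟨hp, h4, h5⟩
      exact ⟨hp, hb p hp h4 h5, h5⟩
    · rintro ⟨hp, h4, h5⟩
      exact ⟨hp, by linarith, h5⟩
  show ({p : ℕ | p.Prime ∧ y - Lam * Real.log y < p ∧ (p : ℝ) < y}).ncard = m
  rw [hset]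
  exact ha

theorem result (θ lam Lam : ℝ) (m : ℕ) (hθ : 0 < θ) (hθ1 : θ < 1) (hl : 0 < lam) (hL : lam ≤ Lam) :
    ∃ c κ : ℝ, 0 < c ∧ 0 < κ ∧
      MostReals θ c κ (Pattern lam Lam m) ∧ AlmostEvery θ c (Pattern lam Lam m) := by
  obtain ⟨c, κ, hc, hκ, Y₀, hY⟩ := Pool.Agent.H749R6.CM.multiples θ lam Lam m hθ hθ1 hl hL
  have hmost : MostReals θ (c / 2) κ (Pattern lam Lam m) := by
    have hev : ∀ᶠ Y : ℝ in atTop, 2 / c ≤ Y ^ θ := (tendsto_rpow_atTop hθ).eventually_ge_atTop _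
    obtain ⟨Y₁, hY₁⟩ := hev.exists_forall_of_atTop
    refine ⟨max (max Y₀ Y₁) 1, fun Y h1 => ?_⟩
    have g1 : Y₀ ≤ Y := (le_max_left _ _).trans ((le_max_left _ _).trans h1)
    have g2 : Y₁ ≤ Y := (le_max_right _ _).trans ((le_max_left _ _).trans h1)
    have g3 : 1 ≤ Y := (le_max_right _ _).trans h1
    obtain ⟨E, hE1, hE2, hE3⟩ := hY Y g1
    refine ⟨E, hE1, hE2, fun x h2 h3 h4 => ?_⟩
    have h5 := hE3 x h2 h3 h4
    have hfin : {k : ℕ | (k : ℝ) ≤ Y ^ θ ∧ Pattern lam Lam m (k * x)}.Finite :=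
      (Set.finite_Iic ⌊Y ^ θ⌋₊).subset fun k hk => Nat.le_floor hk.1
    have h6 : {k : ℕ | (k : ℝ) ≤ Y ^ θ ∧
        {p : ℕ | p.Prime ∧ k * x - lam * Real.log (k * x) < p ∧ (p : ℝ) < k * x}.ncard = m ∧
        ∀ p : ℕ, p.Prime → k * x - Lam * Real.log (k * x) < p → (p : ℝ) < k * x →
          k * x - lam * Real.log (k * x) < p} ⊆
        insert 0 {k : ℕ | (k : ℝ) ≤ Y ^ θ ∧ Pattern lam Lam m (k * x)} := by
      rintro k ⟨hk, h7⟩
      rcases Nat.eq_zero_or_pos k with h8 | h8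
      · rw [h8]
        exact Set.mem_insert _ _
      · refine Set.mem_insert_of_mem _ ⟨hk, pattern_of h7 hL ?_⟩
        have h9 : (1 : ℝ) ≤ k := by exact_mod_cast h8
        nlinarith
    have h7 := (Set.ncard_le_ncard h6 (hfin.insert 0)).trans (Set.ncard_insert_le _ _)
    have h8 : c * Y ^ θ ≤ ({k : ℕ | (k : ℝ) ≤ Y ^ θ ∧ Pattern lam Lam m (k * x)}.ncard : ℝ) + 1 :=
      h5.trans (by exact_mod_cast h7)
    have h9 := hY₁ Y g2
    rw [div_le_iff₀ hc] at h9
    linarith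
  exact ⟨c / 2, κ, by positivity, hκ, hmost,
    fun q hq => Pool.Agent.X108.Pat.ae_of hκ hmost q hq⟩

end Pool.Agent.Results.MP_3bc45c_nt.ExactCountsBelowMultiples
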