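import Pool.Agent.X10.ML.Multiples

set_option autoImplicit false

/-!
# Mills sequences that stay in record prime gaps, with all their real multiples

Let `c > 1` be ANY real number. For `θ > 1` let `N_n` be the integer part of `θ ^ (c ^ n)`. The `θ` for which, for all
large `n`, no prime lies within `κ f(N_n)` of any of the `r + 1` numbers `N_n`, `α_j N_n + β_j` (`j ≤ r`) form a set of
Hausdorff dimension `1` in each interval; the real numbers `α_j`, `β_j` may even depend on `n`.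
Here `f(x) = log x (log₂ x)² log₄ x / (log₃ x)²`, the size of the largest prime gaps known.
-/

open Filter

namespace Pool.Agent.Results.MP_3bc45c_nt.MillsSequencesRealMultiples

/-- The record scale `f(x) = log x (log₂ x)² log₄ x / (log₃ x)²` (iterated natural logarithms). -/
noncomputable def f (x : ℝ) : ℝ :=
  Real.log x * (Real.log (Real.log x)) ^ 2 * Real.log (Real.log (Real.log (Real.log x))) /
    (Real.log (Real.log (Real.log x))) ^ 2

/-- No prime is at distance at most `d` from `x`. -/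
def PrimeFreeAround (x d : ℝ) : Prop := ∀ q : ℕ, q.Prime → d < |(q : ℝ) - x|

/-- The `α_j` are at least `b`, and `|h₁ α₁ + ⋯ + h_r α_r - m| ≥ b H ^ (-τ)` for all integers `m` and all
nonzero integer vectors `h` with entries at most `H`. -/
def Diophantine (r : ℕ) (τ b : ℝ) (α : Fin r → ℝ) : Prop :=
  (∀ j, b ≤ α j) ∧ ∀ (H : ℕ) (h : Fin r → ℤ), h ≠ 0 → (∀ j, |h j| ≤ H) → ∀ m : ℤ,
    b * (H : ℝ) ^ (-τ) ≤ |∑ j, (h j : ℝ) * α j - m|

/-- For all large `n`, no prime is within `κ f(N)` of `N` and of the `α_j N + β_j`, where `N` is the integer part of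
`θ ^ (c ^ n)` and `α = α n`, `β = β n`. -/
def Stays {r : ℕ} (c κ : ℝ) (α β : ℕ → Fin r → ℝ) (θ : ℝ) : Prop :=
  ∃ n₀ : ℕ, ∀ n : ℕ, n₀ ≤ n →
    PrimeFreeAround (⌊θ ^ (c ^ n)⌋₊ : ℝ) (κ * f (⌊θ ^ (c ^ n)⌋₊ : ℝ)) ∧
    ∀ j, PrimeFreeAround (α n j * (⌊θ ^ (c ^ n)⌋₊ : ℝ) + β n j) (κ * f (⌊θ ^ (c ^ n)⌋₊ : ℝ))

/-- Let `r ≥ 1`, `τ ≥ 0` and `c > 1`.
(1) For every `s < 1` there is `κ > 0` (which depends on `r, τ, c, s` only) such that for all `b > 0`, all sequences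
of Diophantine vectors `α n` with the constants `τ, b`, all sequences `β n` with `log⁺ |β n| = o(c ^ n)` and every
open set `U` that meets `(1, ∞)`, the `θ ∈ U`, `θ > 1`, with `Stays c κ α β θ` form a set of Hausdorff dimension at
least `s`.
(2) For all such sequences and every such `U` the `θ ∈ U`, `θ > 1`, for which `Stays c κ α β θ` holds for some
`κ > 0` form a set of Hausdorff dimension `1`. -/
theorem result (r : ℕ) (hr : 1 ≤ r) (τ : ℝ) (hτ : 0 ≤ τ) (c : ℝ) (hc : 1 < c) :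
    (∀ s : ℝ, s < 1 → ∃ κ : ℝ, 0 < κ ∧ ∀ b : ℝ, 0 < b → ∀ α β : ℕ → Fin r → ℝ,
      (∀ n, Diophantine r τ b (α n)) →
      (∀ ε : ℝ, 0 < ε → ∀ᶠ n : ℕ in atTop, ∀ j, |β n j| ≤ Real.exp (ε * c ^ n)) →
      ∀ U : Set ℝ, IsOpen U → (U ∩ Set.Ioi 1).Nonempty →
      ENNReal.ofReal s ≤ dimH {θ : ℝ | θ ∈ U ∧ 1 < θ ∧ Stays c κ α β θ}) ∧
    ∀ b : ℝ, 0 < b → ∀ α β : ℕ → Fin r → ℝ, (∀ n, Diophantine r τ b (α n)) →
      (∀ ε : ℝ, 0 < ε → ∀ᶠ n : ℕ in atTop, ∀ j, |β n j| ≤ Real.exp (ε * c ^ n)) →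
      ∀ U : Set ℝ, IsOpen U → (U ∩ Set.Ioi 1).Nonempty →
      dimH {θ : ℝ | θ ∈ U ∧ 1 < θ ∧ ∃ κ : ℝ, 0 < κ ∧ Stays c κ α β θ} = 1 := by
  constructor
  · intro s hs
    rcases le_or_gt s 0 with h0 | h0
    · refine ⟨1, one_pos, fun b _ α β _ _ U _ _ => ?_⟩
      rw [ENNReal.ofReal_of_nonpos h0]
      exact zero_le
    · exact Pool.Agent.X10.ML.multiples r hr τ hτ c s hc h0 hs
  · intro b hb α β hα hβ U hU hne
    apply Pool.Agent.X10.ML.dim_eq_one
    intro s hs0 hs1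
    obtain ⟨κ, hκ, h⟩ := Pool.Agent.X10.ML.multiples r hr τ hτ c s hc hs0 hs1
    refine (h b hb α β hα hβ U hU hne).trans (dimH_mono ?_)
    rintro θ ⟨t1, t2, t3⟩
    exact ⟨t1, t2, κ, hκ, t3⟩

end Pool.Agent.Results.MP_3bc45c_nt.MillsSequencesRealMultiples
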