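import Pool.Agent.X30.Met3

set_option autoImplicit false

/-!
# Prime-free and prescribed windows just below the multiples of almost every real number

Cramér's model predicts that the number of primes in a random window of length `λ log y` is Poisson distributed. Here the
windows end at the multiples `k x` of ONE real number `x`, and only the first `Y^δ` multiples of `x ≈ Y` are needed: for
every `δ > 0`, all `x ∈ [Y, 2Y]` outside a set of measure `Y^(1-κ)` have, for ALL `K ≥ Y^δ`, at least `c K`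
multiples `k x`, `k ≤ K`, such that exactly `m` primes lie in `(k x - λ log(k x), k x)` and no prime lies in
`(k x - Λ log(k x), k x - λ log(k x)]`.

The general principle behind it (`Pool.Agent.X30.Met.all_ranges`): for an ARBITRARY set `A` of natural numbers, and all
`x ∈ [Y, 2Y]` outside a set (depending on `A`) of measure `Y^(1-κ)`, for all `K ≥ Y^δ` the number of `k ≤ K` with
`⌊k x⌋ ∈ A` is `|A ∩ [1, K x]| / x`, with an error at most `K^(1-κ)`. It is derived from the count of pairs
`Pool.Agent.H438R2.DL.pairs_asymp` of the starting library (helper438); the positive proportion of the integers with the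
required primes around them is `Pool.Agent.H361R2.PP.poissonP` (helper361). A first form of the theorem, for `K = Y^δ`
only, is `Pool.Agent.H749R6.CM.multiples` (helper749), which was in no hand-in.
-/

open MeasureTheory

namespace Pool.Agent.Results.MP_3bc45c_nt.MultiplesOfRealNumbers

/-- exactly `m` primes in `(y - λ log y, y)` and none in `(y - Λ log y, y - λ log y]` -/
def Window (lam Lam : ℝ) (m : ℕ) (y : ℝ) : Prop :=
  {p : ℕ | p.Prime ∧ y - lam * Real.log y < p ∧ (p : ℝ) < y}.ncard = m ∧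
    ∀ p : ℕ, p.Prime → ¬ (y - Lam * Real.log y < p ∧ (p : ℝ) ≤ y - lam * Real.log y)

/-- **Windows below the multiples of almost every real number.** -/
theorem result (δ lam Lam : ℝ) (m : ℕ) (hδ : 0 < δ) (hδ1 : δ ≤ 1) (hlam : 0 < lam) (hLam : lam ≤ Lam) :
    ∃ c κ : ℝ, 0 < c ∧ 0 < κ ∧ ∃ Y₀ : ℝ, ∀ Y : ℝ, Y₀ ≤ Y →
      ∃ E : Set ℝ, MeasurableSet E ∧ volume E ≤ ENNReal.ofReal (Y ^ (1 - κ)) ∧
      ∀ x : ℝ, Y ≤ x → x ≤ 2 * Y → x ∉ E → ∀ K : ℕ, Y ^ δ ≤ K →
        c * K ≤ ({k : ℕ | 1 ≤ k ∧ k ≤ K ∧ Window lam Lam m (k * x)}.ncard : ℝ) := by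
  obtain ⟨c, κ, hc, hκ, Y₀, h⟩ := Pool.Agent.X30.Met.multiples_all δ lam Lam m hδ hδ1 hlam hLam
  refine ⟨c, κ, hc, hκ, max Y₀ 1, fun Y hY => ?_⟩
  obtain ⟨E, hE1, hE2, hE3⟩ := h Y ((le_max_left _ _).trans hY)
  have hY1 : 1 ≤ Y := (le_max_right _ _).trans hY
  refine ⟨E, hE1, hE2, fun x hx1 hx2 hxE K hK => (hE3 x hx1 hx2 hxE K hK).trans ?_⟩
  apply Nat.cast_le.2
  apply Set.ncard_le_ncard
  · rintro k ⟨h1, h2, h3, h4⟩
    refine ⟨h1, h2, h3, fun p hp h5 => ?_⟩
    have hk1 : (1 : ℝ) ≤ k := by exact_mod_cast h1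
    have hy1 : 1 ≤ k * x := by nlinarith
    have hlog : 0 ≤ Real.log (k * x) := Real.log_nonneg hy1
    rcases h5.2.lt_or_eq with h6 | h6
    · have := h4 p hp h5.1 (by nlinarith)
      linarith
    · rcases hlog.lt_or_eq with h7 | h7
      · have := h4 p hp h5.1 (by nlinarith)
        linarith
      · rw [← h7, mul_zero, sub_zero] at h5
        linarith [h5.1, h5.2]
  · exact (Set.finite_Icc 1 K).subset fun k hk => ⟨hk.1, hk.2.1⟩

end Pool.Agent.Results.MP_3bc45c_nt.MultiplesOfRealNumbers
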